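import Mathlib

/-!
# MP_7107b3_al: doubles. A *_C A is virtually representable onto Z iff A is or C is not profinitely dense in A

No cohomology and no trees. See `Pool/Agent/Results/MP_7107b3_al/`.
-/

set_option autoImplicit false

namespace Pool.Agent.DB7107

open Monoid

/-- some subgroup of finite index maps onto the integers -/
def VZ (G : Type) [Group G] : Prop :=
  ∃ H : Subgroup G, H.FiniteIndex ∧ ∃ f : H →* Multiplicative ℤ, Function.Surjective f

theorem onto {G : Type} [Group G] (f : G →* Multiplicative ℤ) {x : G} (hx : f x ≠ 1) :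
    ∃ g : G →* Multiplicative ℤ, Function.Surjective g := by
  obtain ⟨d, hd⟩ := Int.subgroup_cyclic (MonoidHom.toAdditiveLeft f).range
  have hmem : ∀ y : G, d ∣ (f y).toAdd := by
    intro y
    have : (f y).toAdd ∈ (MonoidHom.toAdditiveLeft f).range := ⟨Additive.ofMul y, rfl⟩
    rw [hd, AddSubgroup.mem_closure_singleton] at this
    obtain ⟨n, hn⟩ := this
    exact ⟨n, by rw [← hn]; simp [mul_comm]⟩
  have hd0 : d ≠ 0 := by
    rintro rfl
    apply hx
    have := hmem x
    rw [zero_dvd_iff] at this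
    exact Multiplicative.toAdd.injective this
  have hdr : d ∈ (MonoidHom.toAdditiveLeft f).range := by
    rw [hd]
    exact AddSubgroup.subset_closure rfl
  obtain ⟨y, hy⟩ := hdr
  refine ⟨{ toFun := fun z => Multiplicative.ofAdd ((f z).toAdd / d)
            map_one' := by simp
            map_mul' := ?_ }, ?_⟩
  · intro a b
    rw [map_mul, toAdd_mul, Int.add_ediv_of_dvd_left (hmem a), ofAdd_add]
  · intro z
    refine ⟨(Additive.toMul y) ^ (Multiplicative.toAdd z), ?_⟩
    show Multiplicative.ofAdd ((f ((Additive.toMul y) ^ (Multiplicative.toAdd z))).toAdd / d) = z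
    have h1 : (f (Additive.toMul y)).toAdd = d := hy
    rw [map_zpow, toAdd_zpow, h1, smul_eq_mul, Int.mul_ediv_cancel _ hd0]
    rfl

theorem vz_of_ne {G : Type} [Group G] (H : Subgroup G) (hH : H.FiniteIndex) (f : H →* Multiplicative ℤ)
    {x : H} (hx : f x ≠ 1) : VZ G :=
  ⟨H, hH, onto f hx⟩

variable {A C : Type} [Group A] [Group C] (φ : C →* A)

/-- the double of A along C -/
abbrev Dbl : Type := PushoutI (fun _ : Bool => φ)

/-- the retraction -/
noncomputable def retr : Dbl φ →* A :=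
  PushoutI.lift (fun _ : Bool => MonoidHom.id A) φ (fun _ => by ext; rfl)

theorem retr_of (i : Bool) (a : A) : retr φ (PushoutI.of i a) = a := by
  simp [retr]

theorem vz_of_vz (h : VZ A) : VZ (Dbl φ) := by
  obtain ⟨H, hH, f, hf⟩ := h
  have hr : Function.Surjective (retr φ) := fun a => ⟨PushoutI.of true a, retr_of φ true a⟩
  refine ⟨H.comap (retr φ), ?_, ?_⟩
  · exact ⟨by
      rw [Subgroup.index_comap_of_surjective _ hr]
      exact hH.index_ne_zero⟩
  · refine ⟨f.comp ((retr φ).subgroupComap H), ?_⟩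
    intro z
    obtain ⟨h, hh⟩ := hf z
    obtain ⟨g, hg⟩ := hr h.1
    refine ⟨⟨g, by rw [Subgroup.mem_comap, hg]; exact h.2⟩, ?_⟩
    rw [← hh]
    show f _ = f h
    congr 1
    exact Subtype.ext hg

open Classical in
/-- the indicator of the trivial coset -/
noncomputable def mm (H : Subgroup A) : A ⧸ H → Multiplicative ℤ :=
  fun x => if x = ((1 : A) : A ⧸ H) then Multiplicative.ofAdd 1 else 1

/-- the affine group -/
abbrev Aff (H : Subgroup A) : Type := (A ⧸ H → Multiplicative ℤ) ⋊[mulAutArrow] A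

theorem arrow_apply (H : Subgroup A) (a : A) (F : A ⧸ H → Multiplicative ℤ) (x : A ⧸ H) :
    (mulAutArrow a : MulAut (A ⧸ H → Multiplicative ℤ)) F x = F (a⁻¹ • x) := rfl

theorem mm_one (H : Subgroup A) : mm H ((1 : A) : A ⧸ H) = Multiplicative.ofAdd 1 := by
  unfold mm
  rw [if_pos rfl]

theorem mm_ne (H : Subgroup A) {a : A} (ha : a ∉ H) : mm H (a⁻¹ • ((1 : A) : A ⧸ H)) = 1 := by
  unfold mm
  rw [if_neg]
  rw [MulAction.Quotient.smul_coe, smul_eq_mul, mul_one, QuotientGroup.eq]
  simpa using ha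

theorem arrow_mm (H : Subgroup A) {a : A} (ha : a ∈ H) :
    (mulAutArrow a : MulAut (A ⧸ H → Multiplicative ℤ)) (mm H) = mm H := by
  ext x
  show Multiplicative.toAdd (mm H (a⁻¹ • x)) = _
  have h1 : a⁻¹ • x = ((1 : A) : A ⧸ H) ↔ x = ((1 : A) : A ⧸ H) := by
    rw [inv_smul_eq_iff]
    have h2 : a • ((1 : A) : A ⧸ H) = ((1 : A) : A ⧸ H) := by
      rw [MulAction.Quotient.smul_coe, smul_eq_mul, mul_one, QuotientGroup.eq]
      simpa using ha
    rw [h2]
  by_cases hx : x = ((1 : A) : A ⧸ H)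
  · simp only [mm]
    rw [if_pos hx, if_pos (h1.2 hx)]
  · simp only [mm]
    rw [if_neg hx, if_neg (fun h => hx (h1.1 h))]

/-- the second copy -/
noncomputable def d2 (H : Subgroup A) : A →* Aff H :=
  ((MulAut.conj (SemidirectProduct.inl (mm H) : Aff H)).toMonoidHom).comp SemidirectProduct.inr

theorem d2_def (H : Subgroup A) (a : A) : d2 H a = (SemidirectProduct.inl (mm H) : Aff H) *
    SemidirectProduct.inr a * (SemidirectProduct.inl (mm H))⁻¹ := rfl

theorem grp {G : Type} [Group G] (r u : G) : r * (u * r * u⁻¹)⁻¹ = (r * u * r⁻¹) * u⁻¹ := by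
  group

theorem d2_eq (H : Subgroup A) {a : A} (ha : a ∈ H) : d2 H a = SemidirectProduct.inr a := by
  rw [d2_def]
  rw [mul_inv_eq_iff_eq_mul]
  apply SemidirectProduct.ext
  · simp [arrow_mm H ha]
  · simp

/-- the hom of the double to the affine group -/
noncomputable def dd (H : Subgroup A) (hH : φ.range ≤ H) : Dbl φ →* Aff H :=
  PushoutI.lift (fun i : Bool => if i then SemidirectProduct.inr else d2 H)
    ((SemidirectProduct.inr : A →* Aff H).comp φ) (by
      intro i
      cases i
      · ext1 c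
        exact d2_eq H (hH ⟨c, rfl⟩)
      · rfl)

theorem dd_true (H : Subgroup A) (hH : φ.range ≤ H) (a : A) :
    dd φ H hH (PushoutI.of true a) = SemidirectProduct.inr a := by
  simp [dd]

theorem dd_false (H : Subgroup A) (hH : φ.range ≤ H) (a : A) :
    dd φ H hH (PushoutI.of false a) = d2 H a := by
  simp [dd]

theorem dd_right (H : Subgroup A) (hH : φ.range ≤ H) (g : Dbl φ) :
    (dd φ H hH g).right = retr φ g := by
  have h : (SemidirectProduct.rightHom).comp (dd φ H hH) = retr φ := by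
    apply PushoutI.hom_ext_nonempty
    intro i
    ext1 a
    show SemidirectProduct.rightHom (dd φ H hH (PushoutI.of i a)) = retr φ (PushoutI.of i a)
    rw [retr_of]
    cases i
    · rw [dd_false]
      show SemidirectProduct.rightHom ((SemidirectProduct.inl (mm H) : Aff H) *
        SemidirectProduct.inr a * (SemidirectProduct.inl (mm H))⁻¹) = a
      rw [map_mul, map_mul, map_inv]
      simp
    · rw [dd_true]
      simp
  exact DFunLike.congr_fun h g

/-- the value at the trivial coset -/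
noncomputable def ev (H : Subgroup A) (hH : φ.range ≤ H) (g : Dbl φ) : Multiplicative ℤ :=
  (dd φ H hH g).left ((1 : A) : A ⧸ H)

theorem ev_one (H : Subgroup A) (hH : φ.range ≤ H) : ev φ H hH 1 = 1 := by
  unfold ev
  rw [map_one]
  rfl

theorem ev_mul (H : Subgroup A) (hH : φ.range ≤ H) (g h : Dbl φ) (hg : retr φ g ∈ H) :
    ev φ H hH (g * h) = ev φ H hH g * ev φ H hH h := by
  unfold ev
  rw [map_mul, SemidirectProduct.mul_left]
  show (dd φ H hH g).left _ *
      (dd φ H hH h).left ((dd φ H hH g).right⁻¹ • ((1 : A) : A ⧸ H)) = _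
  have key : (dd φ H hH g).right⁻¹ • ((1 : A) : A ⧸ H) = ((1 : A) : A ⧸ H) := by
    rw [dd_right, MulAction.Quotient.smul_coe, smul_eq_mul, mul_one, QuotientGroup.eq]
    simpa using hg
  rw [key]

theorem ev_x (H : Subgroup A) (hH : φ.range ≤ H) {a : A} (ha : a ∉ H) :
    ev φ H hH (PushoutI.of true a * (PushoutI.of false a)⁻¹) ≠ 1 := by
  unfold ev
  rw [map_mul, map_inv, dd_true, dd_false]
  have e : (SemidirectProduct.inr a : Aff H) * (d2 H a)⁻¹ =
      SemidirectProduct.inl ((mulAutArrow a : MulAut (A ⧸ H → Multiplicative ℤ)) (mm H)) *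
        (SemidirectProduct.inl (mm H))⁻¹ := by
    rw [SemidirectProduct.inl_aut, map_inv, d2_def]
    exact grp _ _
  rw [e, ← map_inv, ← map_mul, SemidirectProduct.left_inl]
  rw [Pi.mul_apply, Pi.inv_apply, arrow_apply, mm_ne H ha, mm_one, one_mul]
  intro h
  have h2 := congrArg Multiplicative.toAdd h
  simp at h2

theorem vz_of_sep (H : Subgroup A) (hf : H.FiniteIndex) (hH : φ.range ≤ H) (hne : H ≠ ⊤) :
    VZ (Dbl φ) := by
  obtain ⟨a, ha⟩ : ∃ a : A, a ∉ H := by
    by_contra h
    push Not at h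
    exact hne (by ext x; simp [h x])
  have hr : Function.Surjective (retr φ) := fun a => ⟨PushoutI.of true a, retr_of φ true a⟩
  have hN : (H.comap (retr φ)).FiniteIndex := ⟨by
    rw [Subgroup.index_comap_of_surjective _ hr]
    exact hf.index_ne_zero⟩
  let f : (H.comap (retr φ)) →* Multiplicative ℤ :=
    { toFun := fun g => ev φ H hH g.1
      map_one' := ev_one φ H hH
      map_mul' := fun g h => ev_mul φ H hH g.1 h.1 g.2 }
  have hx : PushoutI.of true a * (PushoutI.of false a)⁻¹ ∈ H.comap (retr φ) := by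
    rw [Subgroup.mem_comap, map_mul, map_inv, retr_of, retr_of, mul_inv_cancel]
    exact one_mem _
  exact vz_of_ne _ hN f (x := ⟨_, hx⟩) (ev_x φ H hH ha)

/-- the i-th copy -/
noncomputable def oo (i : Bool) : A →* Dbl φ := PushoutI.of (G := fun _ : Bool => A) i

/-- the density half: N is generated by the two vertex groups -/
theorem dense_half (hd : ∀ H : Subgroup A, H.FiniteIndex → φ.range ≤ H → H = ⊤)
    (h : VZ (Dbl φ)) : VZ A := by
  obtain ⟨H0, hH0, f0, hf0⟩ := h
  let N : Subgroup (Dbl φ) := H0.normalCore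
  have hNf : N.FiniteIndex := inferInstance
  have hle : N ≤ H0 := H0.normalCore_le
  let f : N →* Multiplicative ℤ := f0.comp (Subgroup.inclusion hle)
  -- f is not trivial
  obtain ⟨x, hx⟩ : ∃ x : N, f x ≠ 1 := by
    obtain ⟨y, hy⟩ := hf0 (Multiplicative.ofAdd 1)
    obtain ⟨n, hn0, -, hn⟩ := Subgroup.exists_pow_mem_of_index_ne_zero hNf.index_ne_zero (y : Dbl φ)
    refine ⟨⟨(y : Dbl φ) ^ n, hn⟩, ?_⟩
    have e : f ⟨(y : Dbl φ) ^ n, hn⟩ = f0 (y ^ n) := rfl
    rw [e, map_pow, hy]
    intro h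
    have h2 := congrArg Multiplicative.toAdd h
    rw [toAdd_pow, toAdd_ofAdd] at h2
    simp at h2
    omega
  by_contra hA
  -- the vertex groups
  let M : Bool → Subgroup A := fun i => N.comap (oo φ i)
  have hM : ∀ i, (M i).FiniteIndex := by
    intro i
    refine ⟨?_⟩
    show (N.comap (oo φ i)).index ≠ 0
    have h1 := Subgroup.relIndex_comap_ne_zero (oo φ i) (J := N) (K := ⊤)
      (by rw [Subgroup.relIndex_top_right]; exact hNf.index_ne_zero)
    rwa [Subgroup.comap_top, Subgroup.relIndex_top_right] at h1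
  have hMn : ∀ i, (M i).Normal := fun i => Subgroup.normal_comap _
  have hgen : ∀ i (a : A), ∃ c : C, ∃ b ∈ M i, a = φ c * b := by
    intro i a
    have h1 : φ.range ⊔ M i = ⊤ := hd _ (by
      have := hM i
      exact Subgroup.finiteIndex_of_le le_sup_right) le_sup_left
    have h2 : a ∈ (↑(φ.range ⊔ M i) : Set A) := by rw [h1]; trivial
    have := hMn i
    rw [Subgroup.mul_normal] at h2
    obtain ⟨_, ⟨c, rfl⟩, b, hb, e⟩ := h2
    exact ⟨c, b, hb, e.symm⟩
  let K : Subgroup (Dbl φ) := Subgroup.closure {g | ∃ i, ∃ a ∈ M i, g = oo φ i a}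
  have hK : ∀ i, ∀ a ∈ M i, (oo φ i a : Dbl φ) ∈ K := fun i a ha =>
    Subgroup.subset_closure ⟨i, a, ha, rfl⟩
  have hbase : ∀ (i : Bool) (c : C), (PushoutI.base (fun _ : Bool => φ) c : Dbl φ) =
      oo φ i (φ c) := fun i c => (PushoutI.of_apply_eq_base (fun _ : Bool => φ) i c).symm
  have hKb : ∀ (c : C) (k : Dbl φ), k ∈ K →
      PushoutI.base (fun _ : Bool => φ) c * k * (PushoutI.base (fun _ : Bool => φ) c)⁻¹ ∈ K := by
    intro c k hk
    induction hk using Subgroup.closure_induction with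
    | mem k hk =>
      obtain ⟨i, a, ha, rfl⟩ := hk
      rw [hbase i, ← map_inv, ← map_mul, ← map_mul]
      exact hK i _ ((hMn i).conj_mem a ha _)
    | one => simp
    | mul a b _ _ ha hb =>
      have : PushoutI.base (fun _ : Bool => φ) c * (a * b) * (PushoutI.base (fun _ : Bool => φ) c)⁻¹ =
        (PushoutI.base (fun _ : Bool => φ) c * a * (PushoutI.base (fun _ : Bool => φ) c)⁻¹) *
        (PushoutI.base (fun _ : Bool => φ) c * b * (PushoutI.base (fun _ : Bool => φ) c)⁻¹) := by group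
      rw [this]
      exact K.mul_mem ha hb
    | inv a _ ha =>
      have : PushoutI.base (fun _ : Bool => φ) c * a⁻¹ * (PushoutI.base (fun _ : Bool => φ) c)⁻¹ =
        (PushoutI.base (fun _ : Bool => φ) c * a * (PushoutI.base (fun _ : Bool => φ) c)⁻¹)⁻¹ := by group
      rw [this]
      exact K.inv_mem ha
  have hdec : ∀ g : Dbl φ, ∃ c : C, ∃ k ∈ K, g = PushoutI.base (fun _ : Bool => φ) c * k := by
    intro g
    induction g using PushoutI.induction_on with
    | of i a =>
      change ∃ c : C, ∃ k ∈ K, oo φ i a = PushoutI.base (fun _ : Bool => φ) c * k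
      obtain ⟨c, b, hb, e⟩ := hgen i a
      exact ⟨c, _, hK i b hb, by rw [e, map_mul, hbase i]⟩
    | base c => exact ⟨c, 1, K.one_mem, by simp⟩
    | mul g g' hg hg' =>
      obtain ⟨c, k, hk, rfl⟩ := hg
      obtain ⟨c', k', hk', rfl⟩ := hg'
      refine ⟨c * c', (PushoutI.base (fun _ : Bool => φ) c'⁻¹ * k *
        (PushoutI.base (fun _ : Bool => φ) c'⁻¹)⁻¹) * k', K.mul_mem (hKb _ _ hk) hk', ?_⟩
      rw [map_mul, map_inv]
      group
  have hKN : K ≤ N := by
    rw [Subgroup.closure_le]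
    rintro g ⟨i, a, ha, rfl⟩
    exact ha
  have hNK : N ≤ K := by
    intro n hn
    obtain ⟨c, k, hk, rfl⟩ := hdec n
    have h1 : PushoutI.base (fun _ : Bool => φ) c ∈ N := by
      have := N.mul_mem hn (N.inv_mem (hKN hk))
      simpa [mul_assoc] using this
    rw [hbase true] at h1 ⊢
    exact K.mul_mem (hK true _ h1) hk
  -- f vanishes on the vertex groups
  have hv : ∀ i (a : A) (ha : a ∈ M i), f ⟨oo φ i a, ha⟩ = 1 := by
    intro i a ha
    by_contra hne
    let g : M i →* Multiplicative ℤ :=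
      { toFun := fun b => f ⟨oo φ i b.1, b.2⟩
        map_one' := by
          have : (⟨oo φ i ((1 : M i) : A), (1 : M i).2⟩ : N) = 1 := Subtype.ext (by simp)
          rw [this, map_one]
        map_mul' := fun b b' => by
          have : (⟨oo φ i ((b * b' : M i) : A), (b * b').2⟩ : N) =
            ⟨oo φ i b.1, b.2⟩ * ⟨oo φ i b'.1, b'.2⟩ := Subtype.ext (by simp)
          rw [this, map_mul] }
    exact hA (vz_of_ne (M i) (hM i) g (x := ⟨a, ha⟩) hne)
  have hL : K ≤ (f.ker).map N.subtype := by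
    rw [Subgroup.closure_le]
    rintro g ⟨i, a, ha, rfl⟩
    exact ⟨⟨oo φ i a, ha⟩, hv i a ha, rfl⟩
  obtain ⟨y, hy, e⟩ := hL (hNK x.2)
  have : y = x := Subtype.ext e
  rw [this] at hy
  exact hx hy

/-- **Doubles.** -/
theorem main : VZ (Dbl φ) ↔ (VZ A ∨ ∃ H : Subgroup A, H.FiniteIndex ∧ φ.range ≤ H ∧ H ≠ ⊤) := by
  constructor
  · intro h
    by_cases hd : ∃ H : Subgroup A, H.FiniteIndex ∧ φ.range ≤ H ∧ H ≠ ⊤
    · exact Or.inr hd
    · push Not at hd
      exact Or.inl (dense_half φ hd h)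
  · rintro (h | ⟨H, h1, h2, h3⟩)
    · exact vz_of_vz φ h
    · exact vz_of_sep φ H h1 h2 h3

end Pool.Agent.DB7107
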