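import Pool.Agent.Work.MP_7107b3_al.DB.Double

/-!
# MP_7107b3_al: if the amalgamated subgroup is profinitely dense in one factor, a virtual map onto Z comes from a
factor
-/

set_option autoImplicit false

namespace Pool.Agent.DB7107

open Monoid

variable {K : Bool → Type} [∀ i, Group (K i)] {C : Type} [Group C] (φ : ∀ i, C →* K i)

/-- C is not dense in the profinite topology of A -/
def Sep {A C : Type} [Group A] [Group C] (f : C →* A) : Prop :=
  ∃ H : Subgroup A, H.FiniteIndex ∧ f.range ≤ H ∧ H ≠ ⊤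

/-- the i-th factor -/
noncomputable def ou (i : Bool) : K i →* PushoutI φ := PushoutI.of i

theorem half_gen (j : Bool) (hd : ∀ H : Subgroup (K j), H.FiniteIndex → (φ j).range ≤ H → H = ⊤)
    (h : VZ (PushoutI φ)) : ∃ i, VZ (K i) := by
  obtain ⟨H0, hH0, f0, hf0⟩ := h
  let N : Subgroup (PushoutI φ) := H0.normalCore
  have hNf : N.FiniteIndex := inferInstance
  have hle : N ≤ H0 := H0.normalCore_le
  let f : N →* Multiplicative ℤ := f0.comp (Subgroup.inclusion hle)
  obtain ⟨x, hx⟩ : ∃ x : N, f x ≠ 1 := by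
    obtain ⟨y, hy⟩ := hf0 (Multiplicative.ofAdd 1)
    obtain ⟨n, hn0, -, hn⟩ := Subgroup.exists_pow_mem_of_index_ne_zero hNf.index_ne_zero
      (y : PushoutI φ)
    refine ⟨⟨(y : PushoutI φ) ^ n, hn⟩, ?_⟩
    have e : f ⟨(y : PushoutI φ) ^ n, hn⟩ = f0 (y ^ n) := rfl
    rw [e, map_pow, hy]
    intro h
    have h2 := congrArg Multiplicative.toAdd h
    rw [toAdd_pow, toAdd_ofAdd] at h2
    simp at h2
    omega
  by_contra hA
  push Not at hA
  let M : ∀ i : Bool, Subgroup (K i) := fun i => N.comap (ou φ i)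
  have hM : ∀ i, (M i).FiniteIndex := by
    intro i
    refine ⟨?_⟩
    have h1 := Subgroup.relIndex_comap_ne_zero (ou φ i) (J := N) (K := ⊤)
      (by rw [Subgroup.relIndex_top_right]; exact hNf.index_ne_zero)
    rwa [Subgroup.comap_top, Subgroup.relIndex_top_right] at h1
  have hMn : ∀ i, (M i).Normal := fun i => Subgroup.normal_comap _
  have hgen : ∀ (a : K j), ∃ c : C, ∃ b ∈ M j, a = φ j c * b := by
    intro a
    have h1 : (φ j).range ⊔ M j = ⊤ := hd _ (by
      have := hM j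
      exact Subgroup.finiteIndex_of_le le_sup_right) le_sup_left
    have h2 : a ∈ (↑((φ j).range ⊔ M j) : Set (K j)) := by rw [h1]; trivial
    have := hMn j
    rw [Subgroup.mul_normal] at h2
    obtain ⟨_, ⟨c, rfl⟩, b, hb, e⟩ := h2
    exact ⟨c, b, hb, e.symm⟩
  let S : Set (PushoutI φ) := {g | ∃ i, ∃ a ∈ M i, g = ou φ i a}
  let L : Subgroup (PushoutI φ) := Subgroup.normalClosure S
  have hL : ∀ i, ∀ a ∈ M i, ou φ i a ∈ L := fun i a ha =>
    Subgroup.subset_normalClosure ⟨i, a, ha, rfl⟩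
  have hbase : ∀ (i : Bool) (c : C), PushoutI.base φ c = ou φ i (φ i c) :=
    fun i c => (PushoutI.of_apply_eq_base φ i c).symm
  have hLn : L.Normal := Subgroup.normalClosure_normal
  have hdec : ∀ g : PushoutI φ, ∃ y : K (!j), ∃ k ∈ L, g = ou φ (!j) y * k := by
    intro g
    induction g using PushoutI.induction_on with
    | of i a =>
      change ∃ y : K (!j), ∃ k ∈ L, ou φ i a = ou φ (!j) y * k
      by_cases hi : i = j
      · subst hi
        obtain ⟨c, b, hb, e⟩ := hgen a
        refine ⟨φ (!i) c, _, hL i b hb, ?_⟩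
        rw [← hbase (!i), hbase i, e, map_mul]
      · have hi' : i = !j := by
          cases i <;> cases j <;> simp_all
        subst hi'
        exact ⟨a, 1, L.one_mem, by simp⟩
    | base c => exact ⟨φ (!j) c, 1, L.one_mem, by rw [hbase (!j)]; simp⟩
    | mul g g' hg hg' =>
      obtain ⟨y, k, hk, rfl⟩ := hg
      obtain ⟨y', k', hk', rfl⟩ := hg'
      refine ⟨y * y', ((ou φ (!j) y')⁻¹ * k * ((ou φ (!j) y')⁻¹)⁻¹) * k',
        L.mul_mem (hLn.conj_mem k hk _) hk', ?_⟩
      rw [map_mul]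
      group
  have hNn : N.Normal := inferInstance
  have hLN : L ≤ N := by
    apply Subgroup.normalClosure_le_normal
    rintro g ⟨i, a, ha, rfl⟩
    exact ha
  have hNL : N ≤ L := by
    intro n hn
    obtain ⟨y, k, hk, rfl⟩ := hdec n
    have h1 : ou φ (!j) y ∈ N := by
      have := N.mul_mem hn (N.inv_mem (hLN hk))
      simpa [mul_assoc] using this
    exact L.mul_mem (hL _ y h1) hk
  have hv : ∀ (g : PushoutI φ) (i : Bool) (a : K i) (ha : a ∈ M i),
      f ⟨g * ou φ i a * g⁻¹, hNn.conj_mem _ ha g⟩ = 1 := by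
    intro g i a ha
    by_contra hne
    let q : M i →* Multiplicative ℤ :=
      { toFun := fun b => f ⟨g * ou φ i b.1 * g⁻¹, hNn.conj_mem _ b.2 g⟩
        map_one' := by
          have : (⟨g * ou φ i ((1 : M i) : K i) * g⁻¹, hNn.conj_mem _ (1 : M i).2 g⟩ : N) = 1 :=
            Subtype.ext (by simp)
          rw [this, map_one]
        map_mul' := fun b b' => by
          have : (⟨g * ou φ i ((b * b' : M i) : K i) * g⁻¹, hNn.conj_mem _ (b * b').2 g⟩ : N) =
            ⟨g * ou φ i b.1 * g⁻¹, hNn.conj_mem _ b.2 g⟩ *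
              ⟨g * ou φ i b'.1 * g⁻¹, hNn.conj_mem _ b'.2 g⟩ :=
            Subtype.ext (by
              show g * ou φ i (b.1 * b'.1) * g⁻¹ = (g * ou φ i b.1 * g⁻¹) * (g * ou φ i b'.1 * g⁻¹)
              rw [map_mul]
              group)
          rw [this, map_mul] }
    exact hA i (vz_of_ne (M i) (hM i) q (x := ⟨a, ha⟩) hne)
  have hK : L ≤ (f.ker).map N.subtype := by
    show Subgroup.closure _ ≤ _
    rw [Subgroup.closure_le]
    intro z hz
    rw [Group.mem_conjugatesOfSet_iff] at hz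
    obtain ⟨_, ⟨i, a, ha, rfl⟩, hc⟩ := hz
    obtain ⟨g, hg⟩ := isConj_iff.1 hc
    exact ⟨⟨g * ou φ i a * g⁻¹, hNn.conj_mem _ ha g⟩, hv g i a ha, hg⟩
  obtain ⟨y, hy, e⟩ := hK (hNL x.2)
  have : y = x := Subtype.ext e
  rw [this] at hy
  exact hx hy

end Pool.Agent.DB7107
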